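import Pool.Agent.H48.HG.Every
import Pool.Agent.H48.HG.Arrow

/-!
# Homogenization with pointwise ratios happens only in deterministic environments

For a walk with finitely many possible steps in an arbitrary environment which is at every time
i.i.d. in space (constant in time, resampled, or anything else), conditions (i) and (ii) of the
problem hold if and only if the transition probabilities are not random and (i) holds. In
particular the unit-arrow model never homogenizes.
-/

set_option autoImplicit false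

open MeasureTheory ProbabilityTheory Filter Topology
open scoped ENNReal

namespace Pool.Agent.Results.MP_31ab2b_pr.OnlyDeterministic

open Pool.Agent.H48.HG

theorem result :
    -- every environment which is i.i.d. in space, with steps in a finite set `R`
    (∀ (d : ℕ) (Ω : Type) [MeasurableSpace Ω] (μ : Measure Ω) [IsProbabilityMeasure μ]
      (R : Finset (Site d)) (q : ℕ → Ω → Site d → Site d → ℝ), IsEnv μ R q →
      -- (1) it homogenizes iff it is deterministic and (i) holds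
      (Homogenizes μ R q ↔
        CLT μ R q ∧ ∃ π : Site d → ℝ, ∀ n y, ∀ᵐ ω ∂μ, ∀ z, q n ω y z = π z) ∧
      -- (2) without (i): a weak lower bound for the probability of the balls `C √n` is enough
      (Stays μ R q →
        (LocalRatio μ R q ↔ ∃ π : Site d → ℝ, ∀ n y, ∀ᵐ ω ∂μ, ∀ z, q n ω y z = π z)) ∧
      -- (3) if all the transition probabilities are random, then no nonrandom kernel `m` works
      ((∀ z ∈ R, ¬ ∃ c : ℝ, ∀ᵐ ω ∂μ, q 0 ω 0 z = c) →
        ∃ δ : ℝ, 0 < δ ∧ ∃ η : ℝ≥0∞, 0 < η ∧ ∀ (m : ℕ → Site d → ℝ) (n : ℕ) (x : Site d),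
          η ≤ μ {ω | δ < |kern R q ω (n + 1) x / m (n + 1) x - 1|} ∨
          ∃ z ∈ R, η ≤ μ {ω | δ < |kern R q ω n (x - z) / m n (x - z) - 1|})) ∧
    -- (4) the unit-arrow model, for arrows constant in time (the problem), resampled, and so on
    (∀ (d : ℕ) [NeZero d] (ε : ℝ), 0 < ε → ε < 1 / (2 * (d : ℝ)) →
      ∀ (Ω : Type) [MeasurableSpace Ω] (μ : Measure Ω) [IsProbabilityMeasure μ]
        (n0 : ℕ → Site d → Ω → Arrow d), (∀ n, IsArrowField μ (n0 n)) →
        IsEnv μ (units d) (arrowEnv ε n0) ∧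
        (∀ z ∈ units d, ¬ ∃ c : ℝ, ∀ᵐ ω ∂μ, arrowEnv ε n0 0 ω 0 z = c) ∧
        ¬ Homogenizes μ (units d) (arrowEnv ε n0)) ∧
    -- (5) arrow fields exist
    (∀ (d : ℕ) [NeZero d], ∃ (Ω : Type) (_ : MeasurableSpace Ω) (μ : Measure Ω)
      (_ : IsProbabilityMeasure μ) (n0 : Site d → Ω → Arrow d), IsArrowField μ n0) := by
  have h1 : ∀ (d : ℕ) (Ω : Type) [MeasurableSpace Ω] (μ : Measure Ω) [IsProbabilityMeasure μ]
      (R : Finset (Site d)) (q : ℕ → Ω → Site d → Site d → ℝ), IsEnv μ R q →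
      (Homogenizes μ R q ↔
        CLT μ R q ∧ ∃ π : Site d → ℝ, ∀ n y, ∀ᵐ ω ∂μ, ∀ z, q n ω y z = π z) := by
    intro d Ω _ μ _ R q h
    constructor
    · rintro ⟨hc, hl⟩
      exact ⟨hc, deterministic h (stays_of_clt h hc) hl⟩
    · rintro ⟨hc, hπ⟩
      exact ⟨hc, localRatio_of_deterministic h hπ⟩
  refine ⟨?_, ?_, fun d _ => exists_arrowField d⟩
  · intro d Ω _ μ _ R q h
    exact ⟨h1 d Ω μ R q h, fun hs => ⟨deterministic h hs, localRatio_of_deterministic h⟩,
      everyKernel h⟩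
  · intro d _ ε h0 h2 Ω _ μ _ n0 hn
    have hE := isEnv hn h0 h2
    have hr : ∀ z ∈ units d, ¬ ∃ c : ℝ, ∀ᵐ ω ∂μ, arrowEnv ε n0 0 ω 0 z = c :=
      fun z hz => arrow_random hn h0 h2 hz
    refine ⟨hE, hr, fun hh => ?_⟩
    obtain ⟨-, π, hπ⟩ := (h1 d Ω μ _ _ hE).mp hh
    have hd : 0 < d := Nat.pos_of_ne_zero (NeZero.ne d)
    have hz : vec ((⟨0, hd⟩, true) : Arrow d) ∈ units d :=
      Finset.mem_image_of_mem _ (Finset.mem_univ _)
    refine hr _ hz ⟨π (vec ((⟨0, hd⟩, true) : Arrow d)), ?_⟩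
    filter_upwards [hπ 0 0] with ω hω
    exact hω _

end Pool.Agent.Results.MP_31ab2b_pr.OnlyDeterministic
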